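import Mathlib

/-!
The combinatorial Banach spaces of finite cliques attached to a function `f : ℕ → ℚ`
(for bijective `f` these are the spaces called Sierpiński spaces), and the exchange argument
showing that certain direct sums do not embed with small distortion.
-/

set_option autoImplicit false

open Finset

namespace Pool.Agent.Lib.MP_adcce9_an

/-- `C` is a finite clique of the graph on `ℕ` which joins `n < m` iff `f n < f m`;
in other words, `f` is strictly increasing on the finite set `C`. -/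
def IsClique (f : ℕ → ℚ) (C : Finset ℕ) : Prop :=
  ∀ n ∈ C, ∀ m ∈ C, n < m → f n < f m

/-- The space `c₀₀(ℕ)` of finitely supported scalar sequences. It is given below the norm
`‖x‖ = sup { ∑ i ∈ C, |x i| : C a finite clique of f }`. -/
def C00 (𝕜 : Type) [RCLike 𝕜] (_f : ℕ → ℚ) : Type := ℕ →₀ 𝕜

section basics

variable {𝕜 : Type} [RCLike 𝕜] {f : ℕ → ℚ}

noncomputable instance instAddCommGroupC00 : AddCommGroup (C00 𝕜 f) :=
  (inferInstance : AddCommGroup (ℕ →₀ 𝕜))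

noncomputable instance instModuleC00 : Module 𝕜 (C00 𝕜 f) :=
  (inferInstance : Module 𝕜 (ℕ →₀ 𝕜))

instance instFunLikeC00 : FunLike (C00 𝕜 f) ℕ 𝕜 := (inferInstance : FunLike (ℕ →₀ 𝕜) ℕ 𝕜)

/-- The norm of the combinatorial space: supremum over all finite cliques `C` of the sums
`∑ i ∈ C, |x i|`. -/
noncomputable instance instNormC00 : Norm (C00 𝕜 f) :=
  ⟨fun x => ⨆ C : {C : Finset ℕ // IsClique f C}, ∑ i ∈ C.1, ‖x i‖⟩

lemma norm_def (x : C00 𝕜 f) :
    ‖x‖ = ⨆ C : {C : Finset ℕ // IsClique f C}, ∑ i ∈ C.1, ‖x i‖ := rfl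

lemma add_apply (x y : C00 𝕜 f) (i : ℕ) : (x + y) i = x i + y i := Finsupp.add_apply _ _ _

lemma sub_apply (x y : C00 𝕜 f) (i : ℕ) : (x - y) i = x i - y i := Finsupp.sub_apply _ _ _

lemma smul_apply (c : 𝕜) (x : C00 𝕜 f) (i : ℕ) : (c • x) i = c * x i := Finsupp.smul_apply _ _ _

lemma zero_apply (i : ℕ) : (0 : C00 𝕜 f) i = 0 := rfl

/-- The support of a finitely supported sequence. -/
def supp (x : C00 𝕜 f) : Finset ℕ := Finsupp.support (x : ℕ →₀ 𝕜)

lemma not_mem_supp {x : C00 𝕜 f} {i : ℕ} (h : i ∉ supp x) : x i = 0 :=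
  Finsupp.notMem_support_iff.1 h

lemma sum_le_supp (x : C00 𝕜 f) (C : Finset ℕ) : ∑ i ∈ C, ‖x i‖ ≤ ∑ i ∈ supp x, ‖x i‖ := by
  calc ∑ i ∈ C, ‖x i‖ = ∑ i ∈ C ∩ supp x, ‖x i‖ := by
        symm
        apply Finset.sum_subset Finset.inter_subset_left
        intro i hi hi'
        have : i ∉ supp x := fun h => hi' (Finset.mem_inter.2 ⟨hi, h⟩)
        simp [not_mem_supp this]
    _ ≤ ∑ i ∈ supp x, ‖x i‖ :=
        Finset.sum_le_sum_of_subset_of_nonneg Finset.inter_subset_right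
          fun _ _ _ => norm_nonneg _

lemma bdd (x : C00 𝕜 f) :
    BddAbove (Set.range fun C : {C : Finset ℕ // IsClique f C} => ∑ i ∈ C.1, ‖x i‖) :=
  ⟨∑ i ∈ supp x, ‖x i‖, by rintro _ ⟨C, rfl⟩; exact sum_le_supp x C.1⟩

lemma isClique_empty : IsClique f ∅ := fun n hn => absurd hn (Finset.notMem_empty n)

lemma isClique_singleton (i : ℕ) : IsClique f {i} := by
  intro n hn m hm hlt
  rw [Finset.mem_singleton] at hn hm
  omega

instance : Nonempty {C : Finset ℕ // IsClique f C} := ⟨⟨∅, isClique_empty⟩⟩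

lemma sum_le_norm (x : C00 𝕜 f) {C : Finset ℕ} (hC : IsClique f C) :
    ∑ i ∈ C, ‖x i‖ ≤ ‖x‖ :=
  le_ciSup (bdd x) ⟨C, hC⟩

lemma norm_le_of {x : C00 𝕜 f} {r : ℝ} (h : ∀ C, IsClique f C → ∑ i ∈ C, ‖x i‖ ≤ r) :
    ‖x‖ ≤ r := ciSup_le fun C => h C.1 C.2

lemma apply_le_norm (x : C00 𝕜 f) (i : ℕ) : ‖x i‖ ≤ ‖x‖ := by
  simpa using sum_le_norm x (isClique_singleton (f := f) i)

lemma exists_clique (x : C00 𝕜 f) {η : ℝ} (hη : 0 < η) :
    ∃ C, IsClique f C ∧ ‖x‖ - η < ∑ i ∈ C, ‖x i‖ := by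
  obtain ⟨C, hC⟩ := exists_lt_of_lt_ciSup (show ‖x‖ - η < ‖x‖ by linarith)
  exact ⟨C.1, C.2, hC⟩

lemma core : NormedSpace.Core 𝕜 (C00 𝕜 f) where
  norm_nonneg x := by
    simpa using sum_le_norm x (isClique_empty (f := f))
  norm_smul c x := by
    apply le_antisymm
    · apply norm_le_of
      intro C hC
      simp only [smul_apply, norm_mul, ← Finset.mul_sum]
      exact mul_le_mul_of_nonneg_left (sum_le_norm x hC) (norm_nonneg _)
    · rcases eq_or_ne c 0 with rfl | hc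
      · have : (0 : ℝ) ≤ ‖(0 : 𝕜) • x‖ := by
          simpa using sum_le_norm ((0 : 𝕜) • x) (isClique_empty (f := f))
        simpa using this
      · have hc' : 0 < ‖c‖ := norm_pos_iff.2 hc
        rw [← le_div_iff₀' hc']
        apply norm_le_of
        intro C hC
        rw [le_div_iff₀' hc', Finset.mul_sum]
        have := sum_le_norm (c • x) hC
        simpa only [smul_apply, norm_mul] using this
  norm_triangle x y := by
    apply norm_le_of
    intro C hC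
    calc ∑ i ∈ C, ‖(x + y) i‖ ≤ ∑ i ∈ C, (‖x i‖ + ‖y i‖) :=
          Finset.sum_le_sum fun i _ => by rw [add_apply]; exact norm_add_le _ _
      _ = ∑ i ∈ C, ‖x i‖ + ∑ i ∈ C, ‖y i‖ := Finset.sum_add_distrib
      _ ≤ ‖x‖ + ‖y‖ := add_le_add (sum_le_norm x hC) (sum_le_norm y hC)
  norm_eq_zero_iff x := by
    constructor
    · intro h
      apply DFunLike.ext
      intro i
      have h1 := apply_le_norm x i
      rw [h] at h1
      rw [zero_apply]
      exact norm_le_zero_iff.1 h1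
    · rintro rfl
      simp [norm_def, zero_apply]

noncomputable instance instNormedAddCommGroupC00 : NormedAddCommGroup (C00 𝕜 f) :=
  NormedAddCommGroup.ofCore core

noncomputable instance instNormedSpaceC00 : NormedSpace 𝕜 (C00 𝕜 f) := NormedSpace.ofCore core

end basics

/-- The combinatorial Banach space `X_f`: the completion of `c₀₀(ℕ)` for the norm
`‖x‖ = sup { ∑ i ∈ C, |x i| : C a finite clique of f }`. For a bijection `f : ℕ → ℚ` it is the
Sierpiński space of `f`. -/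
abbrev XSpace (𝕜 : Type) [RCLike 𝕜] (f : ℕ → ℚ) : Type := UniformSpace.Completion (C00 𝕜 f)

section exchange

variable {𝕜 : Type} [RCLike 𝕜] {f : ℕ → ℚ}

lemma IsClique.subset {A B : Finset ℕ} (hA : IsClique f A) (h : B ⊆ A) : IsClique f B :=
  fun n hn m hm => hA n (h hn) m (h hm)

/-- The exchange lemma: of two finite cliques cut at `N`, one of the two crossed
combinations is again a clique. -/
lemma exchange {A B : Finset ℕ} (hA : IsClique f A) (hB : IsClique f B) (N : ℕ) :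
    IsClique f (A.filter (· < N) ∪ B.filter (N ≤ ·)) ∨
      IsClique f (B.filter (· < N) ∪ A.filter (N ≤ ·)) := by
  by_cases h : ∀ a ∈ A.filter (· < N), ∀ b ∈ B.filter (N ≤ ·), f a < f b
  · left
    intro n hn m hm hlt
    rcases Finset.mem_union.1 hn with hn | hn <;> rcases Finset.mem_union.1 hm with hm | hm
    · exact hA n (Finset.mem_filter.1 hn).1 m (Finset.mem_filter.1 hm).1 hlt
    · exact h n hn m hm
    · have h1 := (Finset.mem_filter.1 hn).2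
      have h2 := (Finset.mem_filter.1 hm).2
      omega
    · exact hB n (Finset.mem_filter.1 hn).1 m (Finset.mem_filter.1 hm).1 hlt
  · right
    push Not at h
    obtain ⟨a, ha, b, hb, hab⟩ := h
    rw [Finset.mem_filter] at ha hb
    intro n hn m hm hlt
    rcases Finset.mem_union.1 hn with hn | hn <;> rcases Finset.mem_union.1 hm with hm | hm
    · exact hB n (Finset.mem_filter.1 hn).1 m (Finset.mem_filter.1 hm).1 hlt
    · rw [Finset.mem_filter] at hn hm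
      have h1 : f n < f b := hB n hn.1 b hb.1 (by omega)
      have h2 : f a < f m := hA a ha.1 m hm.1 (by omega)
      exact lt_of_lt_of_le h1 (hab.trans h2.le)
    · have h1 := (Finset.mem_filter.1 hn).2
      have h2 := (Finset.mem_filter.1 hm).2
      omega
    · exact hA n (Finset.mem_filter.1 hn).1 m (Finset.mem_filter.1 hm).1 hlt

/-- Averaging `x + y` and `x - y` over a clique built from two pieces. -/
lemma cross_le (x y : C00 𝕜 f) {A B : Finset ℕ} {N : ℕ}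
    (h : IsClique f (A.filter (· < N) ∪ B.filter (N ≤ ·))) :
    ∑ i ∈ A.filter (· < N), ‖x i‖ + ∑ i ∈ B.filter (N ≤ ·), ‖y i‖ ≤ (‖x + y‖ + ‖x - y‖) / 2 := by
  have hdisj : Disjoint (A.filter (· < N)) (B.filter (N ≤ ·)) := by
    rw [Finset.disjoint_left]
    intro i hi hi'
    have h1 := (Finset.mem_filter.1 hi).2
    have h2 := (Finset.mem_filter.1 hi').2
    omega
  have h1 := sum_le_norm (x + y) h
  have h2 := sum_le_norm (x - y) h
  rw [Finset.sum_union hdisj] at h1 h2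
  simp only [add_apply] at h1
  simp only [sub_apply] at h2
  have hx : ∀ i, 2 * ‖x i‖ ≤ ‖x i + y i‖ + ‖x i - y i‖ := by
    intro i
    have := norm_add_le (x i + y i) (x i - y i)
    have h3 : x i + y i + (x i - y i) = 2 * x i := by ring
    rw [h3, norm_mul, RCLike.norm_ofNat] at this
    exact this
  have hy : ∀ i, 2 * ‖y i‖ ≤ ‖x i + y i‖ + ‖x i - y i‖ := by
    intro i
    have := norm_sub_le (x i + y i) (x i - y i)
    have h3 : x i + y i - (x i - y i) = 2 * y i := by ring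
    rw [h3, norm_mul, RCLike.norm_ofNat] at this
    exact this
  have h3 : 2 * ∑ i ∈ A.filter (· < N), ‖x i‖ ≤
      ∑ i ∈ A.filter (· < N), ‖x i + y i‖ + ∑ i ∈ A.filter (· < N), ‖x i - y i‖ := by
    rw [Finset.mul_sum, ← Finset.sum_add_distrib]
    exact Finset.sum_le_sum fun i _ => hx i
  have h4 : 2 * ∑ i ∈ B.filter (N ≤ ·), ‖y i‖ ≤
      ∑ i ∈ B.filter (N ≤ ·), ‖x i + y i‖ + ∑ i ∈ B.filter (N ≤ ·), ‖x i - y i‖ := by
    rw [Finset.mul_sum, ← Finset.sum_add_distrib]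
    exact Finset.sum_le_sum fun i _ => hy i
  linarith

/-- The basic quantitative obstruction in `c₀₀`. -/
lemma four_vectors (x₀ x₁ y₀ y₁ : C00 𝕜 f) (N : ℕ) {δ K k : ℝ}
    (hx₀ : ∀ i, N ≤ i → x₀ i = 0) (hy₀ : ∀ i, N ≤ i → y₀ i = 0)
    (hx₁ : ∑ i ∈ Finset.range N, ‖x₁ i‖ ≤ δ) (hy₁ : ∑ i ∈ Finset.range N, ‖y₁ i‖ ≤ δ)
    (hnx₀ : ‖x₀‖ ≤ K) (hnx₁ : ‖x₁‖ ≤ K) (hny₀ : ‖y₀‖ ≤ K) (hny₁ : ‖y₁‖ ≤ K)
    (h1 : ‖x₀ + y₁‖ ≤ K) (h2 : ‖x₀ - y₁‖ ≤ K) (h3 : ‖y₀ + x₁‖ ≤ K) (h4 : ‖y₀ - x₁‖ ≤ K)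
    (h5 : 2 * k ≤ ‖x₀ + x₁‖) (h6 : 2 * k ≤ ‖y₀ + y₁‖) :
    4 * k ≤ 3 * K + 2 * δ := by
  -- sums over the pieces of a clique
  have split : ∀ (u w : C00 𝕜 f) (A : Finset ℕ), (∀ i, N ≤ i → u i = 0) →
      (∑ i ∈ Finset.range N, ‖w i‖ ≤ δ) →
      ∑ i ∈ A, ‖(u + w) i‖ ≤
        ∑ i ∈ A.filter (· < N), ‖u i‖ + ∑ i ∈ A.filter (N ≤ ·), ‖w i‖ + δ := by
    intro u w A hu hw
    have e1 : ∑ i ∈ A, ‖(u + w) i‖ =
        ∑ i ∈ A.filter (· < N), ‖(u + w) i‖ + ∑ i ∈ A.filter (N ≤ ·), ‖(u + w) i‖ := by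
      rw [← Finset.sum_filter_add_sum_filter_not A (· < N)]
      simp only [not_lt]
    have e2 : ∑ i ∈ A.filter (· < N), ‖(u + w) i‖ ≤
        ∑ i ∈ A.filter (· < N), ‖u i‖ + ∑ i ∈ A.filter (· < N), ‖w i‖ := by
      rw [← Finset.sum_add_distrib]
      exact Finset.sum_le_sum fun i _ => by rw [add_apply]; exact norm_add_le _ _
    have e3 : ∑ i ∈ A.filter (· < N), ‖w i‖ ≤ δ := by
      refine le_trans (Finset.sum_le_sum_of_subset_of_nonneg ?_ fun _ _ _ => norm_nonneg _) hw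
      intro i hi
      exact Finset.mem_range.2 (Finset.mem_filter.1 hi).2
    have e4 : ∑ i ∈ A.filter (N ≤ ·), ‖(u + w) i‖ = ∑ i ∈ A.filter (N ≤ ·), ‖w i‖ := by
      apply Finset.sum_congr rfl
      intro i hi
      rw [add_apply, hu i (Finset.mem_filter.1 hi).2, zero_add]
    linarith
  have lowpart : ∀ (u : C00 𝕜 f) (A : Finset ℕ), IsClique f A → ‖u‖ ≤ K →
      ∑ i ∈ A.filter (· < N), ‖u i‖ ≤ K := fun u A hA hu =>
    (sum_le_norm u (hA.subset (Finset.filter_subset _ _))).trans hu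
  have highpart : ∀ (u : C00 𝕜 f) (A : Finset ℕ), IsClique f A → ‖u‖ ≤ K →
      ∑ i ∈ A.filter (N ≤ ·), ‖u i‖ ≤ K := fun u A hA hu =>
    (sum_le_norm u (hA.subset (Finset.filter_subset _ _))).trans hu
  refine le_of_forall_pos_le_add fun η hη => ?_
  obtain ⟨A, hA, hA'⟩ := exists_clique (x₀ + x₁) (half_pos hη)
  obtain ⟨B, hB, hB'⟩ := exists_clique (y₀ + y₁) (half_pos hη)
  have sA := split x₀ x₁ A hx₀ hx₁
  have sB := split y₀ y₁ B hy₀ hy₁
  rcases exchange hA hB N with h | h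
  · have c := cross_le x₀ y₁ h
    have d1 := highpart x₁ A hA hnx₁
    have d2 := lowpart y₀ B hB hny₀
    linarith
  · have c := cross_le y₀ x₁ h
    have d1 := lowpart x₀ A hA hnx₀
    have d2 := highpart y₁ B hB hny₁
    linarith

/-- In a bounded sequence of `c₀₀`, two members nearly agree on the first `N` coordinates. -/
lemma exists_close (w : ℕ → C00 𝕜 f) {M : ℝ} (hM : ∀ n, ‖w n‖ ≤ M) (N : ℕ) {δ : ℝ} (hδ : 0 < δ) :
    ∃ n m : ℕ, n < m ∧ ∑ i ∈ Finset.range N, ‖(w n - w m) i‖ ≤ δ := by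
  let g : ℕ → (Fin N → 𝕜) := fun n i => w n i
  have hg : ∀ n, g n ∈ Metric.closedBall (0 : Fin N → 𝕜) M := by
    intro n
    rw [mem_closedBall_zero_iff]
    have hM0 : 0 ≤ M := (norm_nonneg _).trans (hM 0)
    rw [pi_norm_le_iff_of_nonneg hM0]
    intro i
    exact (apply_le_norm (w n) i).trans (hM n)
  obtain ⟨a, _, φ, hφ, hlim⟩ := (isCompact_closedBall (0 : Fin N → 𝕜) M).tendsto_subseq hg
  have hN : 0 < (N : ℝ) + 1 := by positivity
  have hδ' : 0 < δ / (2 * ((N : ℝ) + 1)) := by positivity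
  obtain ⟨k₀, hk₀⟩ := Metric.tendsto_atTop.1 hlim _ hδ'
  refine ⟨φ k₀, φ (k₀ + 1), hφ (Nat.lt_succ_self _), ?_⟩
  have d1 := hk₀ k₀ le_rfl
  have d2 := hk₀ (k₀ + 1) (Nat.le_succ _)
  have hcoord : ∀ i ∈ Finset.range N, ‖(w (φ k₀) - w (φ (k₀ + 1))) i‖ ≤ δ / ((N : ℝ) + 1) := by
    intro i hi
    have hi' : i < N := Finset.mem_range.1 hi
    have t1 : dist (g (φ k₀) ⟨i, hi'⟩) (a ⟨i, hi'⟩) ≤ dist (g (φ k₀)) a := dist_le_pi_dist _ _ _
    have t2 : dist (g (φ (k₀ + 1)) ⟨i, hi'⟩) (a ⟨i, hi'⟩) ≤ dist (g (φ (k₀ + 1))) a :=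
      dist_le_pi_dist _ _ _
    have t3 := dist_triangle_right (g (φ k₀) ⟨i, hi'⟩) (g (φ (k₀ + 1)) ⟨i, hi'⟩) (a ⟨i, hi'⟩)
    have t4 : dist (g (φ k₀) ⟨i, hi'⟩) (g (φ (k₀ + 1)) ⟨i, hi'⟩) =
        ‖(w (φ k₀) - w (φ (k₀ + 1))) i‖ := by
      rw [dist_eq_norm, sub_apply]
    have t5 : δ / (2 * ((N : ℝ) + 1)) + δ / (2 * ((N : ℝ) + 1)) = δ / ((N : ℝ) + 1) := by
      field_simp
      ring
    simp only [Function.comp_apply] at d1 d2
    linarith
  calc ∑ i ∈ Finset.range N, ‖(w (φ k₀) - w (φ (k₀ + 1))) i‖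
      ≤ ∑ i ∈ Finset.range N, δ / ((N : ℝ) + 1) := Finset.sum_le_sum hcoord
    _ = N * (δ / ((N : ℝ) + 1)) := by rw [Finset.sum_const, Finset.card_range, nsmul_eq_mul]
    _ ≤ δ := by
      rw [mul_div_assoc', div_le_iff₀ hN]
      nlinarith

lemma exists_approx (x : XSpace 𝕜 f) {δ : ℝ} (hδ : 0 < δ) :
    ∃ y : C00 𝕜 f, ‖x - (y : XSpace 𝕜 f)‖ < δ := by
  have hd := UniformSpace.Completion.denseRange_coe (α := C00 𝕜 f)
  obtain ⟨y, hy⟩ := hd.exists_dist_lt x hδ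
  exact ⟨y, by rwa [dist_eq_norm] at hy⟩

/-- The abstract obstruction. Suppose `u : ℕ → X_f` and `v : ℕ → X_f` are two sequences, and that
for the two first members and for all differences of later members the norms behave as
indicated; then `4 k ≤ 3 K`. -/
lemma obstruction (x₀ y₀ : XSpace 𝕜 f) (u v : ℕ → XSpace 𝕜 f) {K k M : ℝ}
    (hu : ∀ n, ‖u n‖ ≤ M) (hv : ∀ n, ‖v n‖ ≤ M)
    (hnx₀ : ‖x₀‖ ≤ K) (hny₀ : ‖y₀‖ ≤ K)
    (hnu : ∀ n m, n < m → ‖u n - u m‖ ≤ K) (hnv : ∀ n m, n < m → ‖v n - v m‖ ≤ K)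
    (h1 : ∀ n m, n < m → ‖x₀ + (v n - v m)‖ ≤ K) (h2 : ∀ n m, n < m → ‖x₀ - (v n - v m)‖ ≤ K)
    (h3 : ∀ n m, n < m → ‖y₀ + (u n - u m)‖ ≤ K) (h4 : ∀ n m, n < m → ‖y₀ - (u n - u m)‖ ≤ K)
    (h5 : ∀ n m, n < m → 2 * k ≤ ‖x₀ + (u n - u m)‖)
    (h6 : ∀ n m, n < m → 2 * k ≤ ‖y₀ + (v n - v m)‖) :
    4 * k ≤ 3 * K := by
  refine le_of_forall_pos_le_add fun ε hε => ?_
  -- everything is approximated within `δ`
  set δ : ℝ := ε / 22 with hδdef
  have hδ : 0 < δ := by positivity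
  obtain ⟨x, hx⟩ := exists_approx x₀ hδ
  obtain ⟨y, hy⟩ := exists_approx y₀ hδ
  choose u' hu' using fun n => exists_approx (u n) hδ
  choose v' hv' using fun n => exists_approx (v n) hδ
  have bound : ∀ (w : ℕ → XSpace 𝕜 f) (w' : ℕ → C00 𝕜 f), (∀ n, ‖w n‖ ≤ M) →
      (∀ n, ‖w n - (w' n : XSpace 𝕜 f)‖ < δ) → ∀ n, ‖w' n‖ ≤ M + δ := by
    intro w w' hw hw' n
    rw [← UniformSpace.Completion.norm_coe (w' n)]
    have := norm_sub_le (w n) (w n - (w' n : XSpace 𝕜 f))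
    rw [sub_sub_cancel] at this
    linarith [hw n, hw' n]
  -- choose a cut point
  obtain ⟨N, hN⟩ : ∃ N, ∀ i, N ≤ i → x i = 0 ∧ y i = 0 := by
    obtain ⟨N, hN⟩ := (supp x ∪ supp y).bddAbove
    refine ⟨N + 1, fun i hi => ?_⟩
    have hi' : i ∉ supp x ∪ supp y := fun h => by
      have := hN h
      omega
    rw [Finset.mem_union, not_or] at hi'
    exact ⟨not_mem_supp hi'.1, not_mem_supp hi'.2⟩
  obtain ⟨a, b, hab, hu1⟩ := exists_close u' (bound u u' hu hu') N hδ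
  obtain ⟨c, d, hcd, hv1⟩ := exists_close v' (bound v v' hv hv') N hδ
  -- comparison of norms in the completion and in `c₀₀`
  have cu : ‖(u a - u b) - ((u' a - u' b : C00 𝕜 f) : XSpace 𝕜 f)‖ ≤ 2 * δ := by
    rw [UniformSpace.Completion.coe_sub]
    have e : u a - u b - ((u' a : XSpace 𝕜 f) - (u' b : XSpace 𝕜 f)) =
      (u a - u' a) - (u b - u' b) := by abel
    rw [e]
    linarith [norm_sub_le (u a - (u' a : XSpace 𝕜 f)) (u b - (u' b : XSpace 𝕜 f)), hu' a, hu' b]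
  have cv : ‖(v c - v d) - ((v' c - v' d : C00 𝕜 f) : XSpace 𝕜 f)‖ ≤ 2 * δ := by
    rw [UniformSpace.Completion.coe_sub]
    have e : v c - v d - ((v' c : XSpace 𝕜 f) - (v' d : XSpace 𝕜 f)) =
      (v c - v' c) - (v d - v' d) := by abel
    rw [e]
    linarith [norm_sub_le (v c - (v' c : XSpace 𝕜 f)) (v d - (v' d : XSpace 𝕜 f)), hv' c, hv' d]
  set p := u a - u b with hp
  set q := v c - v d with hq
  set p' := u' a - u' b with hp'
  set q' := v' c - v' d with hq'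
  have up : ∀ (r s : XSpace 𝕜 f) (r' s' : C00 𝕜 f), ‖r - r'‖ ≤ 2 * δ → ‖s - s'‖ ≤ 2 * δ →
      |‖r + s‖ - ‖r' + s'‖| ≤ 4 * δ ∧ |‖r - s‖ - ‖r' - s'‖| ≤ 4 * δ := by
    intro r s r' s' hr hs
    constructor
    · rw [← UniformSpace.Completion.norm_coe (r' + s'), UniformSpace.Completion.coe_add]
      refine (abs_norm_sub_norm_le _ _).trans ?_
      have e : r + s - ((r' : XSpace 𝕜 f) + (s' : XSpace 𝕜 f)) = (r - r') + (s - s') := by abel
      rw [e]
      linarith [norm_add_le (r - (r' : XSpace 𝕜 f)) (s - (s' : XSpace 𝕜 f))]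
    · rw [← UniformSpace.Completion.norm_coe (r' - s'), UniformSpace.Completion.coe_sub]
      refine (abs_norm_sub_norm_le _ _).trans ?_
      have e : r - s - ((r' : XSpace 𝕜 f) - (s' : XSpace 𝕜 f)) = (r - r') - (s - s') := by abel
      rw [e]
      linarith [norm_sub_le (r - (r' : XSpace 𝕜 f)) (s - (s' : XSpace 𝕜 f))]
  have single : ∀ (r : XSpace 𝕜 f) (r' : C00 𝕜 f), ‖r - r'‖ ≤ 2 * δ → ‖r'‖ ≤ ‖r‖ + 2 * δ := by
    intro r r' hr
    rw [← UniformSpace.Completion.norm_coe r']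
    have := norm_sub_le r (r - (r' : XSpace 𝕜 f))
    rw [sub_sub_cancel] at this
    linarith
  have hx2 : ‖x₀ - (x : XSpace 𝕜 f)‖ ≤ 2 * δ := by linarith
  have hy2 : ‖y₀ - (y : XSpace 𝕜 f)‖ ≤ 2 * δ := by linarith
  have key := four_vectors x p' y q' N (δ := δ) (K := K + 4 * δ) (k := k - 2 * δ)
    (fun i hi => (hN i hi).1) (fun i hi => (hN i hi).2) hu1 hv1
    (by linarith [single x₀ x hx2]) (by linarith [single p p' cu, hnu a b hab])
    (by linarith [single y₀ y hy2]) (by linarith [single q q' cv, hnv c d hcd])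
    (by linarith [(abs_le.1 (up x₀ q x q' hx2 cv).1).1, h1 c d hcd])
    (by linarith [(abs_le.1 (up x₀ q x q' hx2 cv).2).1, h2 c d hcd])
    (by linarith [(abs_le.1 (up y₀ p y p' hy2 cu).1).1, h3 a b hab])
    (by linarith [(abs_le.1 (up y₀ p y p' hy2 cu).2).1, h4 a b hab])
    (by linarith [(abs_le.1 (up x₀ p x p' hx2 cu).1).2, h5 a b hab])
    (by linarith [(abs_le.1 (up y₀ q y q' hy2 cv).1).2, h6 c d hcd])
  have : 4 * k ≤ 3 * K + 22 * δ := by linarith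
  linarith [hδdef]

end exchange

end Pool.Agent.Lib.MP_adcce9_an
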